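import Mathlib

/-!
# Minimal admissible quotients of the two-strand pure braid groups of closed surfaces

`P2 b` is the pure braid group on two strands of a closed orientable surface of genus `b`, given by
the presentation of Gonçalves and Guaschi (generators `ρ₁ⱼ, τ₁ⱼ, ρ₂ⱼ, τ₂ⱼ`, `1 ≤ j ≤ b`, and
`A₁₂`).  We prove that for every `b ≥ 2` the smallest order of an admissible quotient
(a finite quotient in which `A₁₂` survives) is `2 ^ (2 * b + 1)`.
-/

namespace Pool.Agent.Results.MP_97f678_al.MinimalQuotient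

open scoped commutatorElement

/-- The generators `ρ₁ⱼ, τ₁ⱼ, ρ₂ⱼ, τ₂ⱼ, A₁₂` of the two-strand pure braid group of a closed
orientable surface of genus `b`. -/
inductive Gen (b : ℕ) : Type
  | rho1 (j : Fin b)
  | tau1 (j : Fin b)
  | rho2 (j : Fin b)
  | tau2 (j : Fin b)
  | A

variable {b : ℕ}

/-- `ρ₁ⱼ` in the free group. -/
abbrev r1 (j : Fin b) : FreeGroup (Gen b) := FreeGroup.of (Gen.rho1 j)
/-- `τ₁ⱼ` in the free group. -/
abbrev t1 (j : Fin b) : FreeGroup (Gen b) := FreeGroup.of (Gen.tau1 j)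
/-- `ρ₂ⱼ` in the free group. -/
abbrev r2 (j : Fin b) : FreeGroup (Gen b) := FreeGroup.of (Gen.rho2 j)
/-- `τ₂ⱼ` in the free group. -/
abbrev t2 (j : Fin b) : FreeGroup (Gen b) := FreeGroup.of (Gen.tau2 j)
/-- `A₁₂` in the free group. -/
abbrev aa (b : ℕ) : FreeGroup (Gen b) := FreeGroup.of Gen.A

/-- The defining equations of `P₂(Σ_b)` (Gonçalves–Guaschi); `⁅x, y⁆ = x y x⁻¹ y⁻¹`. -/
inductive Eqn (b : ℕ) : FreeGroup (Gen b) → FreeGroup (Gen b) → Prop
  | rho_rho_le (j k : Fin b) (h : j ≤ k) : Eqn b ⁅r1 j, r2 k⁆ 1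
  | rho_rho_gt (j k : Fin b) (h : k < j) :
      Eqn b ⁅r1 j, r2 k⁆ ((aa b)⁻¹ * r2 k * (r2 j)⁻¹ * aa b * r2 j * (r2 k)⁻¹)
  | rho_tau_lt (j k : Fin b) (h : j < k) : Eqn b ⁅r1 j, t2 k⁆ 1
  | rho_tau_eq (j : Fin b) : Eqn b ⁅r1 j, t2 j⁆ (aa b)⁻¹
  | rho_tau_gt (j k : Fin b) (h : k < j) : Eqn b ⁅r1 j, t2 k⁆ ⁅(aa b)⁻¹, t2 k⁆
  | rho_A (j : Fin b) : Eqn b ⁅r1 j, aa b⁆ ⁅(r2 j)⁻¹, aa b⁆
  | tau_rho_lt (j k : Fin b) (h : j < k) : Eqn b ⁅t1 j, r2 k⁆ 1
  | tau_rho_eq (j : Fin b) : Eqn b ⁅t1 j, r2 j⁆ ((t2 j)⁻¹ * aa b * t2 j)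
  | tau_rho_gt (j k : Fin b) (h : k < j) : Eqn b ⁅t1 j, r2 k⁆ ⁅(t2 j)⁻¹, aa b⁆
  | tau_tau_lt (j k : Fin b) (h : j < k) : Eqn b ⁅t1 j, t2 k⁆ 1
  | tau_tau_eq (j : Fin b) : Eqn b ⁅t1 j, t2 j⁆ ⁅(t2 j)⁻¹, aa b⁆
  | tau_tau_gt (j k : Fin b) (h : k < j) :
      Eqn b ⁅t1 j, t2 k⁆
        ((t2 j)⁻¹ * aa b * t2 j * (aa b)⁻¹ * t2 k * aa b * (t2 j)⁻¹ * (aa b)⁻¹ * t2 j * (t2 k)⁻¹)
  | tau_A (j : Fin b) : Eqn b ⁅t1 j, aa b⁆ ⁅(t2 j)⁻¹, aa b⁆
  | surface1 :
      Eqn b (((List.finRange b).reverse.map fun j => ⁅(r1 j)⁻¹, (t1 j)⁻¹⁆ * (t1 j)⁻¹).prod *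
        ((List.finRange b).map fun j => t1 j).prod) (aa b)
  | surface2 :
      Eqn b (((List.finRange b).map fun j => ⁅(r2 j)⁻¹, t2 j⁆ * t2 j).prod *
        ((List.finRange b).reverse.map fun j => (t2 j)⁻¹).prod) (aa b)⁻¹

/-- The pure braid group on two strands of a closed orientable surface of genus `b`. -/
abbrev P2 (b : ℕ) : Type :=
  PresentedGroup {w : FreeGroup (Gen b) | ∃ u v, Eqn b u v ∧ w = u * v⁻¹}

/-- The class `A₁₂` of a loop winding once around the diagonal. -/
def A12 (b : ℕ) : P2 b := PresentedGroup.of Gen.A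

/-- The orders of the admissible quotients of `P₂(Σ_b)`: the finite groups `G` with a surjective
homomorphism `φ : P₂(Σ_b) → G` such that `φ(A₁₂)` has order at least `2`. -/
def admissibleOrders (b : ℕ) : Set ℕ :=
  {n | ∃ (G : Type) (_ : Group G) (_ : Finite G) (φ : P2 b →* G),
    Function.Surjective φ ∧ 2 ≤ orderOf (φ (A12 b)) ∧ Nat.card G = n}

/-! ### Images of the relations -/

section rel
variable {G : Type} [Group G] (φ : P2 b →* G)

/-- The composite of the free group projection with `φ`. -/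
def ev : FreeGroup (Gen b) →* G := φ.comp (PresentedGroup.mk _)

lemma ev_eqn {u v : FreeGroup (Gen b)} (h : Eqn b u v) : ev φ u = ev φ v := by
  have h1 : (PresentedGroup.mk {w : FreeGroup (Gen b) | ∃ u v, Eqn b u v ∧ w = u * v⁻¹}) (u * v⁻¹)
      = 1 := PresentedGroup.one_of_mem ⟨u, v, h, rfl⟩
  have h2 : ev φ (u * v⁻¹) = 1 := by
    simp only [ev, MonoidHom.comp_apply] 
    rw [h1, map_one]
  rwa [map_mul, map_inv, mul_inv_eq_one] at h2

end rel

/-! ### Chains of centralizers -/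

/-- Numerical lemma about chains. -/
lemma chain_num : ∀ (n : ℕ) (d : ℕ → ℕ), (∀ i < n, ∃ k, 2 ≤ k ∧ d i = k * d (i + 1)) →
    0 < d n → d 0 < 2 ^ (n + 1) →
    d n = 1 ∧ (d 0 = 2 ^ n ∨ 2 * d 0 = 3 * 2 ^ n) ∧ ∀ i < n, d i < 4 * d (i + 1) := by
  intro n
  induction n with
  | zero =>
    intro d _ h0 h1
    refine ⟨by omega, Or.inl (by simp at h1 ⊢; omega), by intro i hi; omega⟩
  | succ n ih =>
    intro d hd h0 h1
    obtain ⟨k, hk, hk'⟩ := hd 0 (by omega)
    have h2 : d 1 < 2 ^ (n + 1) := by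
      have : 2 * d 1 ≤ d 0 := by
        rw [hk']; exact Nat.mul_le_mul_right _ hk
      rw [pow_succ] at h1
      omega
    obtain ⟨h3, h4, h5⟩ := ih (fun i => d (i + 1)) (fun i hi => hd (i + 1) (by omega)) h0 h2
    simp only [zero_add] at h3 h4 h5 hk'
    have hp : 0 < 2 ^ n := by positivity
    have hk4 : k < 4 ∧ (d 0 = 2 ^ (n + 1) ∨ 2 * d 0 = 3 * 2 ^ (n + 1)) := by
      have e1 : 2 ^ (n + 1 + 1) = 4 * 2 ^ n := by ring
      have e2 : 2 ^ (n + 1) = 2 * 2 ^ n := by ring
      rw [e1] at h1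
      rw [e2]
      rcases h4 with h4 | h4
      · rw [h4] at hk'
        have hk4 : k < 4 := by
          rw [hk'] at h1
          exact Nat.lt_of_mul_lt_mul_right h1
        refine ⟨hk4, ?_⟩
        interval_cases k
        · left; omega
        · right; omega
      · have hk3 : k < 3 := by
          by_contra hcon
          have : 3 * d 1 ≤ k * d 1 := Nat.mul_le_mul_right _ (by omega)
          omega
        refine ⟨by omega, ?_⟩
        interval_cases k
        right; omega
    refine ⟨h3, hk4.2, ?_⟩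
    intro i hi
    rcases i with _ | i
    · have hd1 : 0 < d 1 := by
        rcases h4 with h4 | h4 <;> omega
      simp only [zero_add]
      rw [hk']
      exact Nat.mul_lt_mul_of_pos_right hk4.1 hd1
    · exact h5 i (by omega)

lemma chain_ge : ∀ (n : ℕ) (d : ℕ → ℕ), (∀ i < n, ∃ k, 2 ≤ k ∧ d i = k * d (i + 1)) →
    2 ^ n * d n ≤ d 0 := by
  intro n
  induction n with
  | zero => intro d _; simp
  | succ n ih =>
    intro d hd
    obtain ⟨k, hk, hk'⟩ := hd 0 (by omega)
    have h := ih (fun i => d (i + 1)) (fun i hi => hd (i + 1) (by omega))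
    simp only [zero_add] at h hk'
    calc 2 ^ (n + 1) * d (n + 1) = 2 * (2 ^ n * d (n + 1)) := by ring
      _ ≤ 2 * d 1 := Nat.mul_le_mul_left _ h
      _ ≤ k * d 1 := Nat.mul_le_mul_right _ hk
      _ = d 0 := hk'.symm

section cent
variable {G : Type} [Group G]

/-- Centralizer of the first `i` elements of a sequence. -/
def C (x : ℕ → G) (i : ℕ) : Subgroup G := Subgroup.centralizer {g | ∃ k < i, x k = g}

lemma mem_C {x : ℕ → G} {i : ℕ} {g : G} : g ∈ C x i ↔ ∀ k < i, x k * g = g * x k := by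
  unfold C
  rw [Subgroup.mem_centralizer_iff]
  constructor
  · intro h k hk
    exact h (x k) ⟨k, hk, rfl⟩
  · rintro h _ ⟨k, hk, rfl⟩
    exact h k hk

lemma C_zero (x : ℕ → G) : C x 0 = ⊤ := by
  ext g; simp [mem_C]

lemma C_le (x : ℕ → G) (i : ℕ) : C x (i + 1) ≤ C x i := by
  intro g hg
  rw [mem_C] at hg ⊢
  intro k hk
  exact hg k (by omega)

variable [Finite G]

lemma C_step (x y : ℕ → G) (n : ℕ) (h1 : ∀ k < n, ∀ i < k, x i * y k = y k * x i)
    (h2 : ∀ k < n, x k * y k ≠ y k * x k) :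
    ∀ i < n, ∃ k, 2 ≤ k ∧ Nat.card (C x i) = k * Nat.card (C x (i + 1)) := by
  intro i hi
  have hdvd : Nat.card (C x (i + 1)) ∣ Nat.card (C x i) :=
    Subgroup.card_dvd_of_le (C_le x i)
  obtain ⟨k, hk⟩ := hdvd
  refine ⟨k, ?_, by rw [hk, mul_comm]⟩
  by_contra hcon
  have hpos : 0 < Nat.card (C x i) := Nat.card_pos
  have hk1 : k = 1 := by
    rcases k with _ | _ | k
    · omega
    · rfl
    · omega
  rw [hk1, mul_one] at hk
  have heq : C x (i + 1) = C x i :=
    Subgroup.eq_of_le_of_card_ge (C_le x i) hk.le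
  have hy : y i ∈ C x i := by
    rw [mem_C]; intro k hk; exact h1 i hi k hk
  rw [← heq, mem_C] at hy
  exact h2 i hi (hy i (by omega))

end cent

/-! ### The two sequences -/

section seqs
variable {G : Type} [Group G]

/-- `ρ₁₁, τ₁₁, ρ₁₂, τ₁₂, …` -/
def seqUp (b : ℕ) (u v : Fin b → G) (i : ℕ) : G :=
  if h : i / 2 < b then (if i % 2 = 0 then u ⟨i / 2, h⟩ else v ⟨i / 2, h⟩) else 1

/-- `ρ₂b, τ₂b, …, ρ₂₁, τ₂₁` -/
def seqDown (b : ℕ) (u v : Fin b → G) (i : ℕ) : G :=
  if h : b - 1 - i / 2 < b then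
    (if i % 2 = 0 then u ⟨b - 1 - i / 2, h⟩ else v ⟨b - 1 - i / 2, h⟩) else 1

/-- The data used in the lower bound. -/
structure Dat (b : ℕ) (p1 q1 p2 q2 : Fin b → G) : Prop where
  c1 : ∀ j k, j ≤ k → p1 j * p2 k = p2 k * p1 j
  c2 : ∀ j k, j < k → p1 j * q2 k = q2 k * p1 j
  c3 : ∀ j k, j < k → q1 j * p2 k = p2 k * q1 j
  c4 : ∀ j k, j < k → q1 j * q2 k = q2 k * q1 j
  n1 : ∀ j, p1 j * q2 j ≠ q2 j * p1 j
  n2 : ∀ j, q1 j * p2 j ≠ p2 j * q1 j

variable {p1 q1 p2 q2 : Fin b → G}

lemma up1 (D : Dat b p1 q1 p2 q2) : ∀ k < 2 * b, ∀ i < k,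
    seqUp b p1 q1 i * seqUp b q2 p2 k = seqUp b q2 p2 k * seqUp b p1 q1 i := by
  intro k hk i hi
  have hk' : k / 2 < b := by omega
  have hi' : i / 2 < b := by omega
  simp only [seqUp, hk', hi', dif_pos]
  rcases Nat.mod_two_eq_zero_or_one i with h1 | h1 <;>
    rcases Nat.mod_two_eq_zero_or_one k with h2 | h2
  · simp only [h1, h2, if_true]
    exact D.c2 _ _ (by rw [Fin.lt_def]; simp only; omega)
  · simp only [h1, h2, if_true, one_ne_zero, if_false]
    exact D.c1 _ _ (by rw [Fin.le_def]; simp only; omega)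
  · simp only [h1, h2, if_true, one_ne_zero, if_false]
    exact D.c4 _ _ (by rw [Fin.lt_def]; simp only; omega)
  · simp only [h1, h2, one_ne_zero, if_false]
    exact D.c3 _ _ (by rw [Fin.lt_def]; simp only; omega)

lemma up2 (D : Dat b p1 q1 p2 q2) : ∀ k < 2 * b,
    seqUp b p1 q1 k * seqUp b q2 p2 k ≠ seqUp b q2 p2 k * seqUp b p1 q1 k := by
  intro k hk
  have hk' : k / 2 < b := by omega
  simp only [seqUp, hk', dif_pos]
  rcases Nat.mod_two_eq_zero_or_one k with h2 | h2
  · simp only [h2, if_true]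
    exact D.n1 _
  · simp only [h2, one_ne_zero, if_false]
    exact D.n2 _

lemma down1 (D : Dat b p1 q1 p2 q2) : ∀ k < 2 * b, ∀ i < k,
    seqDown b p2 q2 i * seqDown b q1 p1 k = seqDown b q1 p1 k * seqDown b p2 q2 i := by
  intro k hk i hi
  have hk' : b - 1 - k / 2 < b := by omega
  have hi' : b - 1 - i / 2 < b := by omega
  simp only [seqDown, hk', hi', dif_pos]
  rcases Nat.mod_two_eq_zero_or_one i with h1 | h1 <;>
    rcases Nat.mod_two_eq_zero_or_one k with h2 | h2
  · simp only [h1, h2, if_true]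
    exact (D.c3 _ _ (by rw [Fin.lt_def]; simp only; omega)).symm
  · simp only [h1, h2, if_true, one_ne_zero, if_false]
    exact (D.c1 _ _ (by rw [Fin.le_def]; simp only; omega)).symm
  · simp only [h1, h2, if_true, one_ne_zero, if_false]
    exact (D.c4 _ _ (by rw [Fin.lt_def]; simp only; omega)).symm
  · simp only [h1, h2, one_ne_zero, if_false]
    exact (D.c2 _ _ (by rw [Fin.lt_def]; simp only; omega)).symm

lemma down2 (D : Dat b p1 q1 p2 q2) : ∀ k < 2 * b,
    seqDown b p2 q2 k * seqDown b q1 p1 k ≠ seqDown b q1 p1 k * seqDown b p2 q2 k := by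
  intro k hk
  have hk' : b - 1 - k / 2 < b := by omega
  simp only [seqDown, hk', dif_pos]
  rcases Nat.mod_two_eq_zero_or_one k with h2 | h2
  · simp only [h2, if_true]
    exact (D.n2 _).symm
  · simp only [h2, one_ne_zero, if_false]
    exact (D.n1 _).symm

end seqs

/-! ### Homomorphisms from `P2 b` -/

section homs
variable {G : Type} [Group G]

/-- Image of `ρ₁ⱼ`. -/
def R1 (φ : P2 b →* G) (j : Fin b) : G := ev φ (r1 j)
/-- Image of `τ₁ⱼ`. -/
def T1 (φ : P2 b →* G) (j : Fin b) : G := ev φ (t1 j)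
/-- Image of `ρ₂ⱼ`. -/
def R2 (φ : P2 b →* G) (j : Fin b) : G := ev φ (r2 j)
/-- Image of `τ₂ⱼ`. -/
def T2 (φ : P2 b →* G) (j : Fin b) : G := ev φ (t2 j)

lemma ev_aa (φ : P2 b →* G) : ev φ (aa b) = φ (A12 b) := rfl

lemma dat (φ : P2 b →* G) (h : φ (A12 b) ≠ 1) : Dat b (R1 φ) (T1 φ) (R2 φ) (T2 φ) where
  c1 j k hjk := by
    have := ev_eqn φ (Eqn.rho_rho_le j k hjk)
    rw [map_one, map_commutatorElement] at this
    exact commutatorElement_eq_one_iff_mul_comm.mp this
  c2 j k hjk := by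
    have := ev_eqn φ (Eqn.rho_tau_lt j k hjk)
    rw [map_one, map_commutatorElement] at this
    exact commutatorElement_eq_one_iff_mul_comm.mp this
  c3 j k hjk := by
    have := ev_eqn φ (Eqn.tau_rho_lt j k hjk)
    rw [map_one, map_commutatorElement] at this
    exact commutatorElement_eq_one_iff_mul_comm.mp this
  c4 j k hjk := by
    have := ev_eqn φ (Eqn.tau_tau_lt j k hjk)
    rw [map_one, map_commutatorElement] at this
    exact commutatorElement_eq_one_iff_mul_comm.mp this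
  n1 j hc := by
    have := ev_eqn φ (Eqn.rho_tau_eq j)
    rw [map_inv, map_commutatorElement, ev_aa] at this
    have h2 := commutatorElement_eq_one_iff_mul_comm.mpr hc
    change ⁅ev φ (r1 j), ev φ (t2 j)⁆ = 1 at h2
    rw [h2] at this
    exact h (by rw [← inv_eq_one]; exact this.symm)
  n2 j hc := by
    have := ev_eqn φ (Eqn.tau_rho_eq j)
    rw [map_mul, map_mul, map_inv, map_commutatorElement, ev_aa] at this
    have h2 := commutatorElement_eq_one_iff_mul_comm.mpr hc
    change ⁅ev φ (t1 j), ev φ (r2 j)⁆ = 1 at h2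
    rw [h2] at this
    apply h
    have h3 : (ev φ (t2 j))⁻¹ * φ (A12 b) * ev φ (t2 j) = 1 := this.symm
    have h4 : φ (A12 b) = ev φ (t2 j) * ((ev φ (t2 j))⁻¹ * φ (A12 b) * ev φ (t2 j)) *
        (ev φ (t2 j))⁻¹ := by group
    rw [h4, h3]; group

/-- If `A₁₂` dies, the two strands commute. -/
lemma comm_of_A (φ : P2 b →* G) (h : φ (A12 b) = 1) (j k : Fin b) :
    R1 φ j * R2 φ k = R2 φ k * R1 φ j ∧ R1 φ j * T2 φ k = T2 φ k * R1 φ j ∧
    T1 φ j * R2 φ k = R2 φ k * T1 φ j ∧ T1 φ j * T2 φ k = T2 φ k * T1 φ j := by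
  have ha : ev φ (aa b) = 1 := h
  refine ⟨?_, ?_, ?_, ?_⟩
  · rcases le_or_gt j k with hjk | hjk
    · have := ev_eqn φ (Eqn.rho_rho_le j k hjk)
      rw [map_one, map_commutatorElement] at this
      exact commutatorElement_eq_one_iff_mul_comm.mp this
    · have := ev_eqn φ (Eqn.rho_rho_gt j k hjk)
      simp only [map_mul, map_inv, ha, map_commutatorElement] at this
      exact commutatorElement_eq_one_iff_mul_comm.mp (this.trans (by group))
  · rcases lt_trichotomy j k with hjk | hjk | hjk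
    · have := ev_eqn φ (Eqn.rho_tau_lt j k hjk)
      rw [map_one, map_commutatorElement] at this
      exact commutatorElement_eq_one_iff_mul_comm.mp this
    · subst hjk
      have := ev_eqn φ (Eqn.rho_tau_eq j)
      simp only [map_mul, map_inv, ha, map_commutatorElement] at this
      exact commutatorElement_eq_one_iff_mul_comm.mp (this.trans (by group))
    · have := ev_eqn φ (Eqn.rho_tau_gt j k hjk)
      simp only [map_mul, map_inv, ha, map_commutatorElement] at this
      exact commutatorElement_eq_one_iff_mul_comm.mp (this.trans (by simp [commutatorElement_def]))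
  · rcases lt_trichotomy j k with hjk | hjk | hjk
    · have := ev_eqn φ (Eqn.tau_rho_lt j k hjk)
      rw [map_one, map_commutatorElement] at this
      exact commutatorElement_eq_one_iff_mul_comm.mp this
    · subst hjk
      have := ev_eqn φ (Eqn.tau_rho_eq j)
      simp only [map_mul, map_inv, ha, map_commutatorElement] at this
      exact commutatorElement_eq_one_iff_mul_comm.mp (this.trans (by group))
    · have := ev_eqn φ (Eqn.tau_rho_gt j k hjk)
      simp only [map_mul, map_inv, ha, map_commutatorElement] at this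
      exact commutatorElement_eq_one_iff_mul_comm.mp (this.trans (by simp [commutatorElement_def]))
  · rcases lt_trichotomy j k with hjk | hjk | hjk
    · have := ev_eqn φ (Eqn.tau_tau_lt j k hjk)
      rw [map_one, map_commutatorElement] at this
      exact commutatorElement_eq_one_iff_mul_comm.mp this
    · subst hjk
      have := ev_eqn φ (Eqn.tau_tau_eq j)
      simp only [map_mul, map_inv, ha, map_commutatorElement] at this
      exact commutatorElement_eq_one_iff_mul_comm.mp (this.trans (by simp [commutatorElement_def]))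
    · have := ev_eqn φ (Eqn.tau_tau_gt j k hjk)
      simp only [map_mul, map_inv, ha, map_commutatorElement] at this
      exact commutatorElement_eq_one_iff_mul_comm.mp (this.trans (by group))

lemma ge_pow [Finite G] (φ : P2 b →* G) (h : φ (A12 b) ≠ 1) :
    2 ^ (2 * b) * Nat.card (C (seqUp b (R1 φ) (T1 φ)) (2 * b)) ≤ Nat.card G ∧
    2 ^ (2 * b) * Nat.card (C (seqDown b (R2 φ) (T2 φ)) (2 * b)) ≤ Nat.card G := by
  have D := dat φ h
  constructor
  · have := chain_ge (2 * b) (fun i => Nat.card (C (seqUp b (R1 φ) (T1 φ)) i))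
      (C_step _ _ _ (up1 D) (up2 D))
    simpa only [C_zero, Subgroup.card_top] using this
  · have := chain_ge (2 * b) (fun i => Nat.card (C (seqDown b (R2 φ) (T2 φ)) i))
      (C_step _ _ _ (down1 D) (down2 D))
    simpa only [C_zero, Subgroup.card_top] using this

end homs

/-! ### The lower bound -/

lemma perm_cube : ∀ c s : Equiv.Perm (Fin 3), c * c ≠ 1 → c * s = s * c → Equiv.Perm.sign s = 1 := by
  decide

lemma perm_even_card (H : Subgroup (Equiv.Perm (Fin 3))) (h : ∀ s ∈ H, Equiv.Perm.sign s = 1) :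
    Nat.card H ≤ 3 := by
  have h1 : H ≤ alternatingGroup (Fin 3) := fun s hs => by
    rw [Equiv.Perm.mem_alternatingGroup]; exact h s hs
  have h2 : Nat.card H ≤ Nat.card (alternatingGroup (Fin 3)) :=
    Nat.card_le_card_of_injective _ (Subgroup.inclusion_injective h1)
  have h3 : 2 * Nat.card (alternatingGroup (Fin 3)) = Nat.card (Equiv.Perm (Fin 3)) :=
    two_mul_nat_card_alternatingGroup
  rw [Nat.card_perm, Nat.card_fin] at h3
  have h4 : Nat.factorial 3 = 6 := rfl
  omega

section lower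
variable {G : Type} [Group G] [Finite G]

/-- The set of generators of a strand. -/
def strand (u v : Fin b → G) : Set G := {g | ∃ j, u j = g ∨ v j = g}

lemma closure_all (φ : P2 b →* G) (hs : Function.Surjective φ) (H : Subgroup G)
    (h1 : ∀ j, R1 φ j ∈ H) (h2 : ∀ j, T1 φ j ∈ H) (h3 : ∀ j, R2 φ j ∈ H) (h4 : ∀ j, T2 φ j ∈ H)
    (h5 : φ (A12 b) ∈ H) : H = ⊤ := by
  rw [eq_top_iff]
  rintro g -
  obtain ⟨x, rfl⟩ := hs g
  obtain ⟨w, rfl⟩ := PresentedGroup.mk_surjective _ x
  change ev φ w ∈ H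
  induction w using FreeGroup.induction_on with
  | C1 => rw [map_one]; exact H.one_mem
  | of g =>
    cases g with
    | rho1 j => exact h1 j
    | tau1 j => exact h2 j
    | rho2 j => exact h3 j
    | tau2 j => exact h4 j
    | A => exact h5
  | inv_of g ih => rw [map_inv]; exact H.inv_mem ih
  | mul x y hx hy => rw [map_mul]; exact H.mul_mem hx hy

/-- A `2`-group generated by a strand cannot have trivial centralizer. -/
lemma two_group_fix (N K : Subgroup G) [K.Normal] (hN : IsPGroup 2 N) (hK : 2 ∣ Nat.card K)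
    (hC : ∀ g : G, (∀ x ∈ N, x * g = g * x) → g = 1) : False := by
  let act : MulAction N K := MulAction.compHom K
    ((MulAut.conjNormal (H := K)).comp N.subtype)
  have h1 : (1 : K) ∈ MulAction.fixedPoints N K := by
    intro n
    change MulAut.conjNormal (n : G) (1 : K) = 1
    exact map_one _
  obtain ⟨z, hz, hz1⟩ := hN.exists_fixed_point_of_prime_dvd_card_of_fixed_point K hK h1
  apply hz1
  have : (z : G) = 1 := by
    apply hC
    intro x hx
    have := hz ⟨x, hx⟩
    change MulAut.conjNormal x z = z at this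
    have h2 : ((MulAut.conjNormal x z : K) : G) = z := by rw [this]
    rw [MulAut.conjNormal_apply] at h2
    calc x * (z : G) = (x * z * x⁻¹) * x := by group
      _ = z * x := by rw [h2]
  exact (Subtype.ext this.symm : (1 : K) = z)

/-- If some element of `K` (index `3`), central in `K`, commutes with an element outside `K`,
it is central. -/
lemma central_of_index_three (K : Subgroup G) (hK : K.index = 3) (z x : G) (hx : x ∉ K)
    (hz : ∀ k ∈ K, k * z = z * k) (hxz : x * z = z * x) : z ∈ Subgroup.center G := by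
  have h1 : K ≤ Subgroup.centralizer {z} := by
    intro k hk
    rw [Subgroup.mem_centralizer_singleton_iff]
    exact (hz k hk)
  have h2 : x ∈ Subgroup.centralizer {z} := by
    rw [Subgroup.mem_centralizer_singleton_iff]; exact hxz
  have h3 : (Subgroup.centralizer {z}).index ∣ 3 := hK ▸ Subgroup.index_dvd_of_le h1
  rcases (Nat.dvd_prime Nat.prime_three).mp h3 with h4 | h4
  · rw [Subgroup.index_eq_one] at h4
    rw [Subgroup.mem_center_iff]
    intro g
    have : g ∈ Subgroup.centralizer {z} := by rw [h4]; trivial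
    rw [Subgroup.mem_centralizer_singleton_iff] at this
    exact this
  · exfalso
    have h5 : Nat.card K = Nat.card (Subgroup.centralizer {z}) := by
      have e1 := K.card_mul_index
      have e2 := (Subgroup.centralizer {z}).card_mul_index
      rw [hK] at e1
      rw [h4] at e2
      omega
    have h6 : K = Subgroup.centralizer {z} := Subgroup.eq_of_le_of_card_ge h1 h5.symm.le
    rw [← h6] at h2
    exact hx h2

/-- A normal subgroup of order `2` is central. -/
lemma central_of_card_two (Z : Subgroup G) [Z.Normal] (h : Nat.card Z = 2) :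
    Z ≤ Subgroup.center G := by
  intro z hz
  by_cases hz1 : z = 1
  · rw [hz1]; exact Subgroup.one_mem _
  rw [Subgroup.mem_center_iff]
  intro g
  obtain ⟨y, hy, hy2⟩ := (Nat.card_eq_two_iff' (1 : Z)).mp h
  have h1 := hy2 ⟨z, hz⟩ (by simpa [Subtype.ext_iff] using hz1)
  have h2 := hy2 ⟨g * z * g⁻¹, Subgroup.Normal.conj_mem inferInstance z hz g⟩ (by
    intro hc
    apply hz1
    have h3 : g * z * g⁻¹ = 1 := congrArg Subtype.val hc
    have h4 : z = g⁻¹ * (g * z * g⁻¹) * g := by group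
    rw [h4, h3]; group)
  have h3 : g * z * g⁻¹ = z := congrArg Subtype.val (h2.trans h1.symm)
  calc g * z = (g * z * g⁻¹) * g := by group
    _ = z * g := by rw [h3]

theorem lower (hb : 2 ≤ b) (φ : P2 b →* G) (hs : Function.Surjective φ) (h : φ (A12 b) ≠ 1) :
    2 ^ (2 * b + 1) ≤ Nat.card G := by
  classical
  by_contra hlt
  push Not at hlt
  have D := dat φ h
  -- numerical consequences
  have hstep := C_step (seqUp b (R1 φ) (T1 φ)) _ _ (up1 D) (up2 D)
  obtain ⟨hC1, hcard, hratio⟩ := chain_num (2 * b)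
    (fun i => Nat.card (C (seqUp b (R1 φ) (T1 φ)) i)) hstep Nat.card_pos
    (by simpa only [C_zero, Subgroup.card_top] using hlt)
  simp only [C_zero, Subgroup.card_top] at hcard
  have hC2 : Nat.card (C (seqDown b (R2 φ) (T2 φ)) (2 * b)) = 1 := by
    have h1 := (ge_pow φ h).2
    have h2 : 0 < Nat.card (C (seqDown b (R2 φ) (T2 φ)) (2 * b)) := Nat.card_pos
    by_contra hne
    have h3 : 2 ≤ Nat.card (C (seqDown b (R2 φ) (T2 φ)) (2 * b)) := by omega
    have h4 := Nat.mul_le_mul_left (2 ^ (2 * b)) h3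
    rw [pow_succ] at hlt
    omega
  have cent1 : ∀ g : G, (∀ j, R1 φ j * g = g * R1 φ j) → (∀ j, T1 φ j * g = g * T1 φ j) →
      g = 1 := by
    intro g h1 h2
    have h3 : g ∈ C (seqUp b (R1 φ) (T1 φ)) (2 * b) := by
      rw [mem_C]
      intro k hk
      have hk' : k / 2 < b := by omega
      simp only [seqUp, hk', dif_pos]
      split_ifs
      · exact h1 _
      · exact h2 _
    rw [Subgroup.card_eq_one] at hC1
    rw [hC1] at h3
    exact Subgroup.mem_bot.mp h3
  have cent2 : ∀ g : G, (∀ j, R2 φ j * g = g * R2 φ j) → (∀ j, T2 φ j * g = g * T2 φ j) →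
      g = 1 := by
    intro g h1 h2
    have h3 : g ∈ C (seqDown b (R2 φ) (T2 φ)) (2 * b) := by
      rw [mem_C]
      intro k hk
      have hk' : b - 1 - k / 2 < b := by omega
      simp only [seqDown, hk', dif_pos]
      split_ifs
      · exact h1 _
      · exact h2 _
    rw [Subgroup.card_eq_one] at hC2
    rw [hC2] at h3
    exact Subgroup.mem_bot.mp h3
  have hcenter : ∀ z ∈ Subgroup.center G, z = 1 := by
    intro z hz
    rw [Subgroup.mem_center_iff] at hz
    exact cent1 z (fun j => hz _) (fun j => hz _)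
  have hnt : Nontrivial G := ⟨⟨_, _, h⟩⟩
  obtain ⟨m, hm⟩ : ∃ m, 2 * b = m + 4 := ⟨2 * b - 4, by omega⟩
  rw [hm] at hcard
  -- the order of `G` is `3 * 2 ^ (2 b - 1)`
  have hG : Nat.card G = 3 * 2 ^ (m + 3) := by
    rcases hcard with hc | hc
    · exfalso
      have hp : IsPGroup 2 G := IsPGroup.of_card hc
      have := hp.center_nontrivial
      obtain ⟨⟨z, hz⟩, hz1⟩ := exists_ne (1 : Subgroup.center G)
      exact hz1 (Subtype.ext (hcenter z hz))
    · rw [show 2 ^ (m + 4) = 2 * 2 ^ (m + 3) by ring] at hc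
      omega
  -- the core of a Sylow `2`-subgroup
  obtain ⟨S⟩ : Nonempty (Sylow 2 G) := inferInstance
  have hS : Nat.card S = 2 ^ (m + 3) := by
    have h1 := S.card_eq_multiplicity
    rw [hG] at h1
    rw [h1]
    congr 1
    rw [Nat.factorization_mul (by norm_num) (by positivity), Finsupp.add_apply,
      Nat.factorization_eq_zero_of_not_dvd (show ¬ 2 ∣ 3 by norm_num),
      Nat.Prime.factorization_pow Nat.prime_two, Finsupp.single_eq_same, zero_add]
  have hSi : (S : Subgroup G).index = 3 := by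
    have h1 := (S : Subgroup G).card_mul_index
    have h2 : Nat.card (S : Subgroup G) = 2 ^ (m + 3) := hS
    rw [h2, hG, mul_comm 3] at h1
    exact Nat.eq_of_mul_eq_mul_left (by positivity) h1
  let e : G ⧸ (S : Subgroup G) ≃ Fin 3 := Finite.equivFinOfCardEq hSi
  let ψ : G →* Equiv.Perm (Fin 3) :=
    (e.permCongrHom.toMonoidHom).comp (MulAction.toPermHom G (G ⧸ (S : Subgroup G)))
  set K : Subgroup G := (S : Subgroup G).normalCore with hKdef
  have hker : ψ.ker = K := by
    rw [hKdef, Subgroup.normalCore_eq_ker]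
    ext g
    simp only [ψ, MonoidHom.mem_ker, MonoidHom.comp_apply]
    exact map_eq_one_iff _ e.permCongrHom.injective
  have hKn : K.Normal := hker ▸ MonoidHom.normal_ker ψ
  have hKS : K ≤ S := Subgroup.normalCore_le _
  have hK2 : IsPGroup 2 K := S.isPGroup'.to_le hKS
  have hKi : K.index = Nat.card ψ.range := by rw [← hker, Subgroup.index_ker]
  have hKi6 : K.index ≤ 6 := by
    rw [hKi]
    have h1 : Nat.card ψ.range ≤ Nat.card (Equiv.Perm (Fin 3)) :=
      Nat.card_le_card_of_injective _ Subtype.val_injective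
    rw [Nat.card_perm, Nat.card_fin] at h1
    exact h1
  have hKne : K ≠ ⊥ := by
    intro hK
    have h1 := K.card_mul_index
    rw [hK, Subgroup.card_bot, one_mul, ← hK, hG] at h1
    have h2 : 0 < 2 ^ m := by positivity
    have h3 : 2 ^ (m + 3) = 8 * 2 ^ m := by ring
    omega
  have hK2dvd : 2 ∣ Nat.card K := by
    obtain ⟨k, hk⟩ := IsPGroup.iff_card.mp hK2
    rw [hk]
    rcases k with _ | k
    · rw [pow_zero, Subgroup.card_eq_one] at hk
      exact absurd hk hKne
    · exact dvd_pow_self 2 (by omega)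
  -- `A₁₂` dies in the quotient by `K`
  have hA : ψ (φ (A12 b)) = 1 := by
    by_contra hne
    have h1 := (ge_pow (ψ.comp φ) hne).1
    have h2 : Nat.card (Equiv.Perm (Fin 3)) = 6 := by rw [Nat.card_perm, Nat.card_fin]; rfl
    rw [h2, hm] at h1
    have h3 : 0 < Nat.card (C (seqUp b (R1 (ψ.comp φ)) (T1 (ψ.comp φ))) (m + 4)) := Nat.card_pos
    have h4 : 0 < 2 ^ m := by positivity
    have h5 : 2 ^ (m + 4) = 16 * 2 ^ m := by ring
    have h6 : 2 ^ (m + 4) * 1 ≤
      2 ^ (m + 4) * Nat.card (C (seqUp b (R1 (ψ.comp φ)) (T1 (ψ.comp φ))) (m + 4)) :=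
      Nat.mul_le_mul_left _ h3
    omega
  have hcomm := comm_of_A (ψ.comp φ) hA
  let N1 : Subgroup G := Subgroup.closure (Set.range (R1 φ) ∪ Set.range (T1 φ))
  let N2 : Subgroup G := Subgroup.closure (Set.range (R2 φ) ∪ Set.range (T2 φ))
  have hNN : ∀ x ∈ N1, ∀ y ∈ N2, ψ x * ψ y = ψ y * ψ x := by
    have h1 : ∀ j, ∀ y ∈ N2, ψ (R1 φ j) * ψ y = ψ y * ψ (R1 φ j) := by
      intro j
      have : N2 ≤ (Subgroup.centralizer {ψ (R1 φ j)}).comap ψ := by
        rw [Subgroup.closure_le]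
        rintro _ (⟨k, rfl⟩ | ⟨k, rfl⟩)
        · rw [SetLike.mem_coe, Subgroup.mem_comap, Subgroup.mem_centralizer_singleton_iff]
          exact (hcomm j k).1.symm
        · rw [SetLike.mem_coe, Subgroup.mem_comap, Subgroup.mem_centralizer_singleton_iff]
          exact (hcomm j k).2.1.symm
      intro y hy
      have := this hy
      rw [Subgroup.mem_comap, Subgroup.mem_centralizer_singleton_iff] at this
      exact this.symm
    have h2 : ∀ j, ∀ y ∈ N2, ψ (T1 φ j) * ψ y = ψ y * ψ (T1 φ j) := by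
      intro j
      have : N2 ≤ (Subgroup.centralizer {ψ (T1 φ j)}).comap ψ := by
        rw [Subgroup.closure_le]
        rintro _ (⟨k, rfl⟩ | ⟨k, rfl⟩)
        · rw [SetLike.mem_coe, Subgroup.mem_comap, Subgroup.mem_centralizer_singleton_iff]
          exact (hcomm j k).2.2.1.symm
        · rw [SetLike.mem_coe, Subgroup.mem_comap, Subgroup.mem_centralizer_singleton_iff]
          exact (hcomm j k).2.2.2.symm
      intro y hy
      have := this hy
      rw [Subgroup.mem_comap, Subgroup.mem_centralizer_singleton_iff] at this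
      exact this.symm
    intro x hx y hy
    have : N1 ≤ (Subgroup.centralizer {ψ y}).comap ψ := by
      rw [Subgroup.closure_le]
      rintro _ (⟨k, rfl⟩ | ⟨k, rfl⟩)
      · rw [SetLike.mem_coe, Subgroup.mem_comap, Subgroup.mem_centralizer_singleton_iff]
        exact h1 k y hy
      · rw [SetLike.mem_coe, Subgroup.mem_comap, Subgroup.mem_centralizer_singleton_iff]
        exact h2 k y hy
    have := this hx
    rw [Subgroup.mem_comap, Subgroup.mem_centralizer_singleton_iff] at this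
    exact this
  have key : ∀ N : Subgroup G, (∀ g : G, (∀ x ∈ N, x * g = g * x) → g = 1) →
      ∃ g ∈ N, ψ g * ψ g ≠ 1 := by
    intro N hN
    by_contra hcon
    push Not at hcon
    refine two_group_fix N K ?_ hK2dvd hN
    rintro ⟨g, hg⟩
    have h1 : g * g ∈ K := by
      rw [← hker, MonoidHom.mem_ker, map_mul]; exact hcon g hg
    obtain ⟨k, hk⟩ := hK2 ⟨g * g, h1⟩
    refine ⟨k + 1, ?_⟩
    apply Subtype.ext
    have h2 : (g * g) ^ 2 ^ k = 1 := congrArg Subtype.val hk
    change g ^ 2 ^ (k + 1) = 1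
    rw [pow_succ', pow_mul, pow_two]
    exact h2
  obtain ⟨g1, hg1, hg1'⟩ := key N1 (by
    intro g hg
    exact cent1 g (fun j => hg _ (Subgroup.subset_closure (Or.inl ⟨j, rfl⟩)))
      (fun j => hg _ (Subgroup.subset_closure (Or.inr ⟨j, rfl⟩))))
  obtain ⟨g2, hg2, hg2'⟩ := key N2 (by
    intro g hg
    exact cent2 g (fun j => hg _ (Subgroup.subset_closure (Or.inl ⟨j, rfl⟩)))
      (fun j => hg _ (Subgroup.subset_closure (Or.inr ⟨j, rfl⟩))))
  -- all images in `S₃` are even
  have heven : ∀ g, Equiv.Perm.sign (ψ g) = 1 := by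
    have h1 : (Equiv.Perm.sign.comp ψ).ker = ⊤ := by
      apply closure_all φ hs
      · intro j
        exact perm_cube _ _ hg2' (hNN _ (Subgroup.subset_closure (Or.inl ⟨j, rfl⟩)) _ hg2).symm
      · intro j
        exact perm_cube _ _ hg2' (hNN _ (Subgroup.subset_closure (Or.inr ⟨j, rfl⟩)) _ hg2).symm
      · intro j
        exact perm_cube _ _ hg1' (hNN _ hg1 _ (Subgroup.subset_closure (Or.inl ⟨j, rfl⟩)))
      · intro j
        exact perm_cube _ _ hg1' (hNN _ hg1 _ (Subgroup.subset_closure (Or.inr ⟨j, rfl⟩)))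
      · rw [MonoidHom.mem_ker, MonoidHom.comp_apply, hA, map_one]
    intro g
    have : g ∈ (Equiv.Perm.sign.comp ψ).ker := by rw [h1]; trivial
    exact this
  have hKi3 : K.index = 3 := by
    have h1 : K.index ≤ 3 := by
      rw [hKi]
      apply perm_even_card
      rintro _ ⟨g, rfl⟩
      exact heven g
    have h2 : 3 ≤ K.index := by
      rw [← hSi]
      have := Subgroup.index_dvd_of_le hKS
      exact Nat.le_of_dvd (Nat.pos_of_ne_zero Subgroup.index_ne_zero_of_finite) this
    omega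
  -- first generator outside `K`
  have hex : ∃ i, i < 2 * b ∧ seqUp b (R1 φ) (T1 φ) i ∉ K := by
    by_contra hcon
    push Not at hcon
    have h1 : N1 ≤ K := by
      rw [Subgroup.closure_le]
      rintro _ (⟨k, rfl⟩ | ⟨k, rfl⟩)
      · have := hcon (2 * k) (by omega)
        have hk : 2 * (k : ℕ) / 2 < b := by omega
        have hk2 : 2 * (k : ℕ) % 2 = 0 := by omega
        have hkk : (⟨2 * (k : ℕ) / 2, hk⟩ : Fin b) = k := Fin.ext (by simp only; omega)
        simp only [seqUp, hk, dif_pos, hk2, if_true, hkk] at this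
        exact this
      · have := hcon (2 * k + 1) (by omega)
        have hk : (2 * (k : ℕ) + 1) / 2 < b := by omega
        have hk2 : (2 * (k : ℕ) + 1) % 2 = 1 := by omega
        have hkk : (⟨(2 * (k : ℕ) + 1) / 2, hk⟩ : Fin b) = k := Fin.ext (by simp only; omega)
        simp only [seqUp, hk, dif_pos, hk2, one_ne_zero, if_false, hkk] at this
        exact this
    have h2 := h1 hg1
    rw [← hker, MonoidHom.mem_ker] at h2
    exact hg1' (by rw [h2, mul_one])
  classical
  obtain ⟨i, ⟨hi, hiK⟩, hmin⟩ : ∃ i, (i < 2 * b ∧ seqUp b (R1 φ) (T1 φ) i ∉ K) ∧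
      ∀ k < i, ¬ (k < 2 * b ∧ seqUp b (R1 φ) (T1 φ) k ∉ K) :=
    ⟨Nat.find hex, Nat.find_spec hex, fun k hk => Nat.find_min hex hk⟩
  let Z : Subgroup G := (Subgroup.center K).map K.subtype
  have hZn : Z.Normal := inferInstance
  have hZK : ∀ z ∈ Z, z ∈ K ∧ ∀ k ∈ K, k * z = z * k := by
    rintro _ ⟨z, hz, rfl⟩
    refine ⟨z.2, ?_⟩
    intro k hk
    have h1 := Subgroup.mem_center_iff.mp hz ⟨k, hk⟩
    exact congrArg Subtype.val h1
  have hZ1 : ∀ z ∈ Z, seqUp b (R1 φ) (T1 φ) i * z = z * seqUp b (R1 φ) (T1 φ) i → z = 1 := by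
    intro z hz hc
    exact hcenter z (central_of_index_three K hKi3 z _ hiK (hZK z hz).2 hc)
  have hZ4 : Nat.card Z < 4 := by
    have h1 : Nat.card (Z × C (seqUp b (R1 φ) (T1 φ)) (i + 1)) ≤
        Nat.card (C (seqUp b (R1 φ) (T1 φ)) i) := by
      refine Nat.card_le_card_of_injective
        (fun p => (⟨(p.1 : G) * p.2, ?_⟩ : C (seqUp b (R1 φ) (T1 φ)) i)) ?_
      · apply Subgroup.mul_mem
        · rw [mem_C]
          intro k hk
          have h2 := hmin k hk
          push Not at h2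
          exact (hZK _ p.1.2).2 _ (h2 (by omega))
        · exact C_le _ _ p.2.2
      · rintro ⟨⟨z, hz⟩, ⟨c, hc⟩⟩ ⟨⟨z', hz'⟩, ⟨c', hc'⟩⟩ heq
        have h2 : z * c = z' * c' := congrArg Subtype.val heq
        have h3 : z'⁻¹ * z = c' * c⁻¹ := by
          calc z'⁻¹ * z = z'⁻¹ * (z * c) * c⁻¹ := by group
            _ = c' * c⁻¹ := by rw [h2]; group
        have h4 : z'⁻¹ * z = 1 := by
          apply hZ1 _ (Z.mul_mem (Z.inv_mem hz') hz)
          rw [h3]
          have h5 := (C (seqUp b (R1 φ) (T1 φ)) (i + 1)).mul_mem hc' (Subgroup.inv_mem _ hc)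
          rw [mem_C] at h5
          exact h5 i (by omega)
        have h5 : z = z' := by
          rw [inv_mul_eq_one] at h4; exact h4.symm
        subst h5
        have h6 : c = c' := mul_left_cancel h2
        subst h6
        rfl
    rw [Nat.card_prod] at h1
    have h2 := lt_of_le_of_lt h1 (hratio i hi)
    exact Nat.lt_of_mul_lt_mul_right h2
  have hZcard : Nat.card Z = Nat.card (Subgroup.center K) :=
    Subgroup.card_map_of_injective K.subtype_injective
  have hZ2 : Nat.card Z = 2 := by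
    have hKnt : Nontrivial K := (Subgroup.nontrivial_iff_ne_bot K).mpr hKne
    have h1 : Nontrivial (Subgroup.center K) := hK2.center_nontrivial
    have h2 : 1 < Nat.card (Subgroup.center K) := Finite.one_lt_card
    have h3 : IsPGroup 2 (Subgroup.center K) := hK2.to_subgroup _
    obtain ⟨k, hk⟩ := IsPGroup.iff_card.mp h3
    rw [← hZcard] at h2 hk
    rcases k with _ | _ | k
    · omega
    · simpa using hk
    · exfalso
      have : 0 < 2 ^ k := by positivity
      have h5 : 2 ^ (k + 1 + 1) = 4 * 2 ^ k := by ring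
      omega
  have hZc := central_of_card_two Z hZ2
  have hZbot : Z = ⊥ := by
    rw [eq_bot_iff]
    intro z hz
    rw [Subgroup.mem_bot]
    exact hcenter z (hZc hz)
  rw [hZbot, Subgroup.card_bot] at hZ2
  omega

end lower

/-! ### The upper bound: a Heisenberg group -/

/-- The Heisenberg group over `𝔽₂` of order `2 ^ (2 b + 1)`. -/
structure Heis (b : ℕ) where
  /-- first coordinate -/
  v : Fin b → ZMod 2
  /-- second coordinate -/
  w : Fin b → ZMod 2
  /-- central coordinate -/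
  s : ZMod 2

namespace Heis

@[ext] lemma ext' {x y : Heis b} (h1 : x.v = y.v) (h2 : x.w = y.w) (h3 : x.s = y.s) : x = y := by
  cases x; cases y; simp_all

instance : Mul (Heis b) := ⟨fun x y => ⟨x.v + y.v, x.w + y.w, x.s + y.s + x.v ⬝ᵥ y.w⟩⟩
instance : One (Heis b) := ⟨⟨0, 0, 0⟩⟩
instance : Inv (Heis b) := ⟨fun x => ⟨-x.v, -x.w, -x.s + x.v ⬝ᵥ x.w⟩⟩

@[simp] lemma mul_v (x y : Heis b) : (x * y).v = x.v + y.v := rfl
@[simp] lemma mul_w (x y : Heis b) : (x * y).w = x.w + y.w := rfl
@[simp] lemma mul_s (x y : Heis b) : (x * y).s = x.s + y.s + x.v ⬝ᵥ y.w := rfl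
@[simp] lemma one_v : (1 : Heis b).v = 0 := rfl
@[simp] lemma one_w : (1 : Heis b).w = 0 := rfl
@[simp] lemma one_s : (1 : Heis b).s = 0 := rfl
@[simp] lemma inv_v (x : Heis b) : (x⁻¹).v = -x.v := rfl
@[simp] lemma inv_w (x : Heis b) : (x⁻¹).w = -x.w := rfl
@[simp] lemma inv_s (x : Heis b) : (x⁻¹).s = -x.s + x.v ⬝ᵥ x.w := rfl

instance : Group (Heis b) := Group.ofLeftAxioms
  (by
    intro x y z
    ext1
    · simp [add_assoc]
    · simp [add_assoc]
    · simp only [mul_s, mul_v, mul_w, add_dotProduct, dotProduct_add]; ring)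
  (by intro x; ext1 <;> simp)
  (by
    intro x
    ext1
    · simp
    · simp
    · simp only [mul_s, inv_s, inv_v, one_s, neg_dotProduct]; ring)

/-- The central element of coordinate `c`. -/
def z (c : ZMod 2) : Heis b := ⟨0, 0, c⟩

lemma z_mul (c d : ZMod 2) : (z c : Heis b) * z d = z (c + d) := by
  ext1 <;> simp [z]

lemma z_comm (c : ZMod 2) (x : Heis b) : z c * x = x * z c := by
  ext1
  · simp [z]
  · simp [z]
  · simp [z, add_comm]

lemma z_zero : (z 0 : Heis b) = 1 := rfl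

/-- The symplectic form. -/
def om (x y : Heis b) : ZMod 2 := x.v ⬝ᵥ y.w + y.v ⬝ᵥ x.w

lemma comm_eq (x y : Heis b) : ⁅x, y⁆ = z (om x y) := by
  rw [commutatorElement_def]
  have h : x * y = z (om x y) * (y * x) := by
    ext1
    · simp [z, add_comm]
    · simp [z, add_comm]
    · simp only [mul_s, mul_v, mul_w, z, om, add_dotProduct, dotProduct_add, zero_dotProduct]
      have h2 : (2 : ZMod 2) = 0 := rfl
      linear_combination (- (y.v ⬝ᵥ x.w)) * h2
  rw [h]; group

lemma card : Nat.card (Heis b) = 2 ^ (2 * b + 1) := by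
  have e : Heis b ≃ (Fin b → ZMod 2) × (Fin b → ZMod 2) × ZMod 2 :=
    { toFun := fun x => (x.v, x.w, x.s)
      invFun := fun p => ⟨p.1, p.2.1, p.2.2⟩
      left_inv := fun _ => rfl
      right_inv := fun _ => rfl }
  rw [Nat.card_congr e, Nat.card_prod, Nat.card_prod, Nat.card_fun, Nat.card_fin, Nat.card_zmod]
  ring

instance : Finite (Heis b) := Nat.finite_of_card_ne_zero (by rw [card]; positivity)

lemma prod_central {ι : Type} (l : List ι) (c : ι → ZMod 2) (u : ι → Heis b) :
    (l.map fun j => z (c j) * u j).prod = z ((l.map c).sum) * (l.map u).prod := by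
  induction l with
  | nil => simp [z_zero]
  | cons a l ih =>
    rw [List.map_cons, List.prod_cons, ih, List.map_cons, List.sum_cons, List.map_cons,
      List.prod_cons, ← z_mul]
    calc z (c a) * u a * (z (List.map c l).sum * (List.map u l).prod)
        = z (c a) * (u a * z (List.map c l).sum) * (List.map u l).prod := by group
      _ = z (c a) * (z (List.map c l).sum * u a) * (List.map u l).prod := by
          rw [z_comm (List.map c l).sum (u a)]
      _ = _ := by group

section model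
variable (i0 i1 : Fin b) (ε : ZMod 2)

/-- image of `ρ₁ⱼ` -/
def gr1 (j : Fin b) : Heis b := ⟨Pi.single j 1, if j = i1 then Pi.single i0 ε else 0, 0⟩
/-- image of `τ₁ⱼ` -/
def gt1 (j : Fin b) : Heis b := ⟨if j = i1 then Pi.single i0 ε else 0, Pi.single j 1, 0⟩
/-- image of `ρ₂ⱼ` -/
def gr2 (j : Fin b) : Heis b := ⟨Pi.single j 1, if j = i0 then Pi.single i1 ε else 0, 0⟩
/-- image of `τ₂ⱼ` -/
def gt2 (j : Fin b) : Heis b := ⟨if j = i0 then Pi.single i1 ε else 0, Pi.single j 1, 0⟩

lemma add_self (x : ZMod 2) : x + x = 0 := CharTwo.add_self_eq_zero x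

lemma om_rr (j k : Fin b) : om (gr1 i0 i1 ε j) (gr2 i0 i1 ε k) = 0 := by
  simp only [om, gr1, gr2, single_dotProduct, one_mul]
  by_cases hj : j = i1 <;> by_cases hk : k = i0 <;>
    simp [hj, hk, Pi.single_apply, add_self]

lemma om_tt (j k : Fin b) : om (gt1 i0 i1 ε j) (gt2 i0 i1 ε k) = 0 := by
  simp only [om, gt1, gt2, dotProduct_single, mul_one]
  by_cases hj : j = i1 <;> by_cases hk : k = i0 <;>
    simp [hj, hk, Pi.single_apply, add_self]

lemma om_rt (h : i0 ≠ i1) (j k : Fin b) :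
    om (gr1 i0 i1 ε j) (gt2 i0 i1 ε k) = if j = k then 1 else 0 := by
  simp only [om, gr1, gt2, single_dotProduct, one_mul]
  by_cases hj : j = i1 <;> by_cases hk : k = i0 <;>
    simp [hj, hk, Pi.single_apply, h, h.symm, eq_comm]

lemma om_tr (h : i0 ≠ i1) (j k : Fin b) :
    om (gt1 i0 i1 ε j) (gr2 i0 i1 ε k) = if j = k then 1 else 0 := by
  simp only [om, gt1, gr2, single_dotProduct, one_mul]
  by_cases hj : j = i1 <;> by_cases hk : k = i0 <;>
    simp [hj, hk, Pi.single_apply, h, h.symm, eq_comm]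

lemma om_s1 (j : Fin b) :
    om (gr1 i0 i1 ε j) (gt1 i0 i1 ε j) = 1 + if j = i1 then ε * ε else 0 := by
  simp only [om, gr1, gt1, single_dotProduct, one_mul]
  by_cases hj : j = i1 <;>
    simp [hj]

lemma om_s2 (j : Fin b) :
    om (gr2 i0 i1 ε j) (gt2 i0 i1 ε j) = 1 + if j = i0 then ε * ε else 0 := by
  simp only [om, gr2, gt2, single_dotProduct, one_mul]
  by_cases hj : j = i0 <;>
    simp [hj]

lemma om_inv (x y : Heis b) : om x⁻¹ y⁻¹ = om x y := by simp [om]

lemma om_inv_left (x y : Heis b) : om x⁻¹ y = om x y := by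
  simp only [om, inv_v, inv_w, neg_dotProduct, dotProduct_neg]
  rw [ZMod.neg_eq_self_mod_two, ZMod.neg_eq_self_mod_two]

lemma z_inv (c : ZMod 2) : (z c : Heis b)⁻¹ = z c := by
  rw [inv_eq_iff_mul_eq_one, z_mul, add_self, z_zero]

lemma surf1 (x y : Fin b → Heis b) :
    ((List.finRange b).reverse.map fun j => ⁅(x j)⁻¹, (y j)⁻¹⁆ * (y j)⁻¹).prod *
        ((List.finRange b).map fun j => y j).prod = z (∑ j, om (x j) (y j)) := by
  have h1 : (fun j => ⁅(x j)⁻¹, (y j)⁻¹⁆ * (y j)⁻¹) =
      fun j => z (om (x j) (y j)) * (y j)⁻¹ := by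
    funext j; rw [comm_eq, om_inv]
  rw [h1, prod_central]
  have h2 : ((List.finRange b).reverse.map fun j => (y j)⁻¹).prod =
      (((List.finRange b).map fun j => y j).prod)⁻¹ := by
    rw [List.prod_inv_reverse, List.map_reverse, List.map_map]; rfl
  rw [h2, inv_mul_cancel_right, List.map_reverse, List.sum_reverse, Fin.sum_univ_def]

lemma surf2 (x y : Fin b → Heis b) :
    ((List.finRange b).map fun j => ⁅(x j)⁻¹, y j⁆ * y j).prod *
        ((List.finRange b).reverse.map fun j => (y j)⁻¹).prod = z (∑ j, om (x j) (y j)) := by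
  have h1 : (fun j => ⁅(x j)⁻¹, y j⁆ * y j) =
      fun j => z (om (x j) (y j)) * y j := by
    funext j; rw [comm_eq, om_inv_left]
  rw [h1, prod_central]
  have h2 : ((List.finRange b).reverse.map fun j => (y j)⁻¹).prod =
      (((List.finRange b).map fun j => y j).prod)⁻¹ := by
    rw [List.prod_inv_reverse, List.map_reverse, List.map_map]; rfl
  rw [h2, mul_inv_cancel_right, Fin.sum_univ_def]

lemma conj_z (c : ZMod 2) (x : Heis b) : x⁻¹ * z c * x = z c := by
  rw [mul_assoc, z_comm, inv_mul_cancel_left]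

lemma comm_z (c : ZMod 2) (x : Heis b) : ⁅x, (z c : Heis b)⁆ = 1 := by
  rw [commutatorElement_eq_one_iff_mul_comm, z_comm]

lemma comm_z' (c : ZMod 2) (x : Heis b) : ⁅(z c : Heis b), x⁆ = 1 := by
  rw [commutatorElement_eq_one_iff_mul_comm, z_comm]

/-- The values of the generators. -/
def val (i0 i1 : Fin b) (ε : ZMod 2) : Gen b → Heis b
  | Gen.rho1 j => gr1 i0 i1 ε j
  | Gen.tau1 j => gt1 i0 i1 ε j
  | Gen.rho2 j => gr2 i0 i1 ε j
  | Gen.tau2 j => gt2 i0 i1 ε j
  | Gen.A => z 1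

lemma lift_eqn (i0 i1 : Fin b) (h : i0 ≠ i1) (ε : ZMod 2) (hε : (b : ZMod 2) + ε * ε = 1)
    {u v : FreeGroup (Gen b)} (huv : Eqn b u v) :
    FreeGroup.lift (val i0 i1 ε) u = FreeGroup.lift (val i0 i1 ε) v := by
  have hr1 : ∀ j, FreeGroup.lift (val i0 i1 ε) (r1 j) = gr1 i0 i1 ε j := fun j => by
    rw [FreeGroup.lift_apply_of]; rfl
  have ht1 : ∀ j, FreeGroup.lift (val i0 i1 ε) (t1 j) = gt1 i0 i1 ε j := fun j => by
    rw [FreeGroup.lift_apply_of]; rfl
  have hr2 : ∀ j, FreeGroup.lift (val i0 i1 ε) (r2 j) = gr2 i0 i1 ε j := fun j => by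
    rw [FreeGroup.lift_apply_of]; rfl
  have ht2 : ∀ j, FreeGroup.lift (val i0 i1 ε) (t2 j) = gt2 i0 i1 ε j := fun j => by
    rw [FreeGroup.lift_apply_of]; rfl
  have haa : FreeGroup.lift (val i0 i1 ε) (aa b) = z 1 := by
    rw [FreeGroup.lift_apply_of]; rfl
  cases huv with
  | rho_rho_le j k hjk =>
    rw [map_commutatorElement, map_one, hr1, hr2, comm_eq, om_rr, z_zero]
  | rho_rho_gt j k hjk =>
    simp only [map_commutatorElement, map_mul, map_inv, hr1, hr2, haa, comm_eq, om_rr, z_zero]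
    rw [z_inv, z_comm 1 (gr2 i0 i1 ε k)]
    rw [show gr2 i0 i1 ε k * z 1 * (gr2 i0 i1 ε j)⁻¹ * z 1 * gr2 i0 i1 ε j * (gr2 i0 i1 ε k)⁻¹
      = gr2 i0 i1 ε k * z 1 * ((gr2 i0 i1 ε j)⁻¹ * z 1 * gr2 i0 i1 ε j) * (gr2 i0 i1 ε k)⁻¹ by
        group]
    rw [conj_z, mul_assoc (gr2 i0 i1 ε k), z_mul, add_self, z_zero]
    group
  | rho_tau_lt j k hjk =>
    rw [map_commutatorElement, map_one, hr1, ht2, comm_eq, om_rt _ _ _ h, if_neg hjk.ne, z_zero]
  | rho_tau_eq j =>
    rw [map_commutatorElement, map_inv, hr1, ht2, haa, comm_eq, om_rt _ _ _ h, if_pos rfl, z_inv]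
  | rho_tau_gt j k hjk =>
    simp only [map_commutatorElement, map_inv, hr1, ht2, haa]
    rw [comm_eq, om_rt _ _ _ h, if_neg hjk.ne', z_zero, z_inv, comm_z']
  | rho_A j =>
    simp only [map_commutatorElement, map_inv, hr1, hr2, haa, comm_z]
  | tau_rho_lt j k hjk =>
    rw [map_commutatorElement, map_one, ht1, hr2, comm_eq, om_tr _ _ _ h, if_neg hjk.ne, z_zero]
  | tau_rho_eq j =>
    simp only [map_commutatorElement, map_inv, map_mul, ht1, hr2, ht2, haa, conj_z]
    rw [comm_eq, om_tr _ _ _ h, if_pos rfl]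
  | tau_rho_gt j k hjk =>
    simp only [map_commutatorElement, map_inv, map_mul, ht1, hr2, ht2, haa, comm_z]
    rw [comm_eq, om_tr _ _ _ h, if_neg hjk.ne', z_zero]
  | tau_tau_lt j k hjk =>
    rw [map_commutatorElement, map_one, ht1, ht2, comm_eq, om_tt, z_zero]
  | tau_tau_eq j =>
    simp only [map_commutatorElement, map_inv, ht1, ht2, haa, comm_z]
    rw [comm_eq, om_tt, z_zero]
  | tau_tau_gt j k hjk =>
    simp only [map_commutatorElement, map_inv, map_mul, ht1, ht2, haa]
    rw [comm_eq, om_tt, z_zero, conj_z, z_inv, z_mul, add_self, z_zero, one_mul]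
    rw [show gt2 i0 i1 ε k * z 1 * (gt2 i0 i1 ε j)⁻¹ * z 1 * gt2 i0 i1 ε j * (gt2 i0 i1 ε k)⁻¹
      = gt2 i0 i1 ε k * z 1 * ((gt2 i0 i1 ε j)⁻¹ * z 1 * gt2 i0 i1 ε j) * (gt2 i0 i1 ε k)⁻¹ by
        group]
    rw [conj_z, mul_assoc (gt2 i0 i1 ε k), z_mul, add_self, z_zero]
    group
  | tau_A j =>
    simp only [map_commutatorElement, map_inv, ht1, ht2, haa, comm_z]
  | surface1 =>
    rw [map_mul, map_list_prod, map_list_prod, List.map_map, List.map_map, haa]
    have e1 : (⇑(FreeGroup.lift (val i0 i1 ε)) ∘ fun j => ⁅(r1 j)⁻¹, (t1 j)⁻¹⁆ * (t1 j)⁻¹) =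
        fun j => ⁅(gr1 i0 i1 ε j)⁻¹, (gt1 i0 i1 ε j)⁻¹⁆ * (gt1 i0 i1 ε j)⁻¹ := by
      funext j
      simp only [Function.comp_apply, map_mul, map_commutatorElement, map_inv, hr1, ht1]
    have e2 : (⇑(FreeGroup.lift (val i0 i1 ε)) ∘ fun j => t1 j) = fun j => gt1 i0 i1 ε j := by
      funext j
      simp only [Function.comp_apply, ht1]
    rw [e1, e2, surf1]
    congr 1
    simp only [om_s1]
    rw [Finset.sum_add_distrib]
    simpa using hε
  | surface2 =>
    rw [map_mul, map_list_prod, map_list_prod, List.map_map, List.map_map, map_inv, haa]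
    have e1 : (⇑(FreeGroup.lift (val i0 i1 ε)) ∘ fun j => ⁅(r2 j)⁻¹, t2 j⁆ * t2 j) =
        fun j => ⁅(gr2 i0 i1 ε j)⁻¹, gt2 i0 i1 ε j⁆ * gt2 i0 i1 ε j := by
      funext j
      simp only [Function.comp_apply, map_mul, map_commutatorElement, map_inv, hr2, ht2]
    have e2 : (⇑(FreeGroup.lift (val i0 i1 ε)) ∘ fun j => (t2 j)⁻¹) =
        fun j => (gt2 i0 i1 ε j)⁻¹ := by
      funext j
      simp only [Function.comp_apply, map_inv, ht2]
    rw [e1, e2, surf2, z_inv]
    congr 1
    simp only [om_s2]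
    rw [Finset.sum_add_distrib]
    simpa using hε

end model

end Heis

/-- A homomorphism to the Heisenberg group in which `A₁₂` survives. -/
lemma exists_hom (hb : 2 ≤ b) : ∃ φ : P2 b →* Heis b, φ (A12 b) ≠ 1 := by
  let i0 : Fin b := ⟨0, by omega⟩
  let i1 : Fin b := ⟨1, by omega⟩
  have h : i0 ≠ i1 := by
    intro h
    have := congrArg Fin.val h
    simp [i0, i1] at this
  have hε : (b : ZMod 2) + ((b : ZMod 2) + 1) * ((b : ZMod 2) + 1) = 1 := by
    generalize (b : ZMod 2) = x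
    revert x
    decide
  have hrel : ∀ r ∈ {w : FreeGroup (Gen b) | ∃ u v, Eqn b u v ∧ w = u * v⁻¹},
      FreeGroup.lift (Heis.val i0 i1 ((b : ZMod 2) + 1)) r = 1 := by
    rintro _ ⟨u, v, huv, rfl⟩
    rw [map_mul, map_inv, Heis.lift_eqn i0 i1 h _ hε huv, mul_inv_cancel]
  refine ⟨PresentedGroup.toGroup hrel, ?_⟩
  unfold A12
  rw [PresentedGroup.toGroup.of]
  intro hc
  have := congrArg Heis.s hc
  simp [Heis.val, Heis.z] at this

lemma two_le_orderOf {G : Type} [Group G] [Finite G] (g : G) : 2 ≤ orderOf g ↔ g ≠ 1 := by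
  rw [Ne, ← orderOf_eq_one_iff]
  have := orderOf_pos g
  omega

/-- **Main theorem.** For every `b ≥ 2`, the smallest order of an admissible quotient of the
two-strand pure braid group of a closed orientable surface of genus `b` is `2 ^ (2 b + 1)`. -/
theorem result (b : ℕ) (hb : 2 ≤ b) : IsLeast (admissibleOrders b) (2 ^ (2 * b + 1)) := by
  constructor
  · obtain ⟨φ, hφ⟩ := exists_hom hb
    have h1 : φ.rangeRestrict (A12 b) ≠ 1 := fun hc => hφ (congrArg Subtype.val hc)
    refine ⟨φ.range, inferInstance, inferInstance, φ.rangeRestrict,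
      φ.rangeRestrict_surjective, (two_le_orderOf _).mpr h1, ?_⟩
    apply le_antisymm
    · rw [← Heis.card]
      exact Nat.card_le_card_of_injective _ Subtype.val_injective
    · exact lower hb φ.rangeRestrict φ.rangeRestrict_surjective h1
  · rintro n ⟨G, _, _, φ, hs, hA, rfl⟩
    exact lower hb φ hs ((two_le_orderOf _).mp hA)

end Pool.Agent.Results.MP_97f678_al.MinimalQuotient
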